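import Mathlib
import Pool.Agent.Helper18.EW.Goals

/-!
# Project EW, packet E4: choice of the row `τ`
-/

set_option autoImplicit false

namespace Pool.Agent.Helper20.EW

open Finset
open Pool.Agent.Helper43.Hw (T na va lz Play aa ac sc oo sk U Dd Sd Pn nx bb np)
open Pool.Agent.Helper18.EW

theorem exists_jump (κ : ℕ → ℕ) (z : ℕ) : ∀ l : ℕ, κ z < κ (z + l) →
    ∃ τ, z < τ ∧ τ ≤ z + l ∧ κ (τ - 1) < κ τ := by
  intro l
  induction l with
  | zero => intro h; exact absurd h (lt_irrefl _)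
  | succ l ih =>
    intro h
    by_cases h1 : κ (z + l) < κ (z + (l + 1))
    · exact ⟨z + (l + 1), by omega, le_rfl, by
        have : z + (l + 1) - 1 = z + l := by omega
        rw [this]; exact h1⟩
    · obtain ⟨τ, h2, h3, h4⟩ := ih (by omega)
      exact ⟨τ, h2, by omega, h4⟩

theorem mono_le {μ R N : ℕ} {κ x : ℕ → ℕ} (hp : Play μ R N κ x) :
    ∀ k a : ℕ, a + k < R → κ a ≤ κ (a + k) := by
  intro k
  induction k with
  | zero => intro a _; exact le_rfl
  | succ k ih =>
    intro a h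
    have h1 := ih a (by omega)
    have h2 := hp.mono (a + k) (by omega)
    have h3 : a + (k + 1) = a + k + 1 := by omega
    rw [h3]
    exact h1.trans h2

/-- E4 -/
theorem goalE4 (h2 : GoalE2) (h6 : GoalE6) : GoalE4 := by
  intro μ R N K b l Lg q β v ℓ κ x par len lo hi v1 vb vc play ex
  obtain ⟨V, hV⟩ : ∃ V, V = 2 ^ q * v := ⟨_, rfl⟩
  have hb : 2 ^ 40 ≤ b := by
    have := par.b1
    have := par.L1
    nlinarith
  have hl := par.l1
  have hR := par.R1
  have hbl : 2 ^ 31 * (b * l) ≤ μ := by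
    have h3 := par.b2
    have h4 : b * l ≤ b * (q + 1) ^ 2 * l := by
      have : 1 ≤ (q + 1) ^ 2 := Nat.one_le_pow _ _ (by omega)
      have h5 : b * l * 1 ≤ b * l * (q + 1) ^ 2 := Nat.mul_le_mul_left _ this
      calc b * l = b * l * 1 := by ring
        _ ≤ b * l * (q + 1) ^ 2 := h5
        _ = b * (q + 1) ^ 2 * l := by ring
    calc 2 ^ 31 * (b * l) ≤ 2 ^ 31 * (b * (q + 1) ^ 2 * l) := Nat.mul_le_mul_left _ h4
      _ = 2 ^ 31 * b * (q + 1) ^ 2 * l := by ring
      _ ≤ μ := h3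
  have hbl2 : 2 ^ 40 * l ≤ b * l := Nat.mul_le_mul_right _ hb
  have hlV : l ≤ V := by
    rw [← hV] at vc
    omega
  have hVμ : V ≤ μ := by
    rw [← hV] at vb
    omega
  have hμ : 1 ≤ μ := by omega
  have hJ : R - 1 - μ + 1 + μ = R := by omega
  obtain ⟨e1, e2, e3, e4⟩ := h6 μ R N β ℓ κ x (R - 1 - μ) hμ hR len play ex (by omega)
  have hd := e3 l (R - 1 - μ - V) (by omega) (by omega) lo
  obtain ⟨τ, t1, t2, t3⟩ := exists_jump κ _ l hd
  have hτJ : τ ≤ R - 1 - μ := by omega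
  have hτN : κ τ < N := by
    have h7 := mono_le play (R - 1 - μ - τ) τ (by omega)
    have h8 : τ + (R - 1 - μ - τ) = R - 1 - μ := by omega
    rw [h8] at h7
    exact lt_of_le_of_lt h7 ex.2.1
  obtain ⟨p1, p2, p3⟩ := h2 μ R N τ κ x hμ (by omega) play (by omega) (by omega) t3 hτN
  have hlzτ : lz μ R N κ x τ = ℓ τ := ex.2.2 τ hτJ
  have hxτ : x τ < μ := play.lt τ (by omega)
  refine ⟨τ, _, _, ⟨par, len, lo, hi, v1, vb, vc, ?_, ?_, by omega, le_rfl, p1, ?_, ?_, ?_, ?_⟩,
    ?_, ?_⟩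
  · rw [← hV]; omega
  · rw [← hV]; omega
  · refine ⟨by omega, ?_, ?_⟩
    · have : τ - 1 < τ := by omega
      simp only [this, if_true]
      omega
    · intro z hz
      rw [p2 z (by omega)]
      exact ex.2.2 z (by omega)
  · have : τ - 1 < τ := by omega
    simp only [this, if_true, lt_irrefl, if_false]
    exact t3
  · simp only [lt_irrefl, if_false]
    exact hτN
  · intro y hy1 _
    have : ¬ y < τ := by omega
    simp only [this, if_false, lt_irrefl]
    exact ⟨trivial, trivial⟩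
  · omega
  · omega

end Pool.Agent.Helper20.EW
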